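import Pool.Agent.Helper57.SJ.Stmts2

/-! Row UPK: the tails at all points of almost all intervals, with an exceptional set of
measure `T H^{-B}`. -/

set_option autoImplicit false

namespace Pool.Agent.Helper32.SJ

open MeasureTheory Set Filter Topology
open Pool.Agent.Helper57.QZ (Pr lin zA)
open Pool.Agent.Helper57.SI (tl ZZ)
open Pool.Agent.Helper57.SJ (PP ST_SUP ST_TLE ST_UPK)

theorem PP_sum (x y : ℕ) (f : ℕ → ℝ) :
    ∑ p ∈ PP x y, f p = ∑ p : Pr y, (if x < (p : ℕ) then f p else 0) := by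
  classical
  have hset : (Nat.primesBelow (y + 1)).filter (fun p => x < p) = PP x y := by
    ext p
    unfold PP
    simp only [Finset.mem_filter, Nat.mem_primesBelow, Finset.mem_Icc]
    constructor
    · rintro ⟨⟨h1, h2⟩, h3⟩
      exact ⟨⟨by omega, by omega⟩, h2⟩
    · rintro ⟨⟨h1, h2⟩, h3⟩
      exact ⟨⟨by omega, h3⟩, by omega⟩
  rw [← hset, Finset.sum_filter]
  exact (Finset.sum_coe_sort (Nat.primesBelow (y + 1)) (fun p => if x < p then f p else 0)).symm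

theorem one_add_log_sq (p : ℝ) (hp : 1 ≤ p) : (1 + Real.log p) ^ 2 ≤ 4 * p := by
  have h0 : 0 ≤ Real.log p := Real.log_nonneg hp
  have h1 : Real.log p = 2 * Real.log (Real.sqrt p) := by
    rw [Real.log_sqrt (by linarith)]; ring
  have h2 : Real.log (Real.sqrt p) ≤ Real.sqrt p - 1 :=
    Real.log_le_sub_one_of_pos (Real.sqrt_pos.2 (by linarith))
  have h3 : Real.sqrt p ^ 2 = p := Real.sq_sqrt (by linarith)
  have h4 : 1 + Real.log p ≤ 2 * Real.sqrt p := by linarith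
  nlinarith [Real.sqrt_nonneg p]

theorem coeff_le (j : ℕ) (hj : j ≤ 1) (p : ℕ) (hp : 1 ≤ p) :
    ‖((Real.log (p : ℝ) ^ j / (p : ℝ) : ℝ) : ℂ)‖ * (1 + Real.log p) ≤
      (1 + Real.log (p : ℝ)) ^ 2 / (p : ℝ) := by
  have hp1 : (1 : ℝ) ≤ p := by exact_mod_cast hp
  have h0 : 0 ≤ Real.log (p : ℝ) := Real.log_nonneg hp1
  rw [Complex.norm_real, Real.norm_eq_abs, abs_of_nonneg (by positivity)]
  rw [div_mul_eq_mul_div]
  apply div_le_div_of_nonneg_right _ (by linarith)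
  have : Real.log (p : ℝ) ^ j ≤ 1 + Real.log (p : ℝ) := by
    interval_cases j
    · simpa using h0
    · simp
  nlinarith

theorem one_tail (h1 : ST_SUP) (h2 : ST_TLE) (η : ℝ) (hη : 0 < η) (S : ℝ) (x y : ℕ)
    (hy : 1 ≤ y)
    (hS : ∑ p : Pr y, (if x < (p : ℕ) then
      ((1 + Real.log ((p : ℕ) : ℝ)) ^ 2 / ((p : ℕ) : ℝ)) ^ 2 else 0) ≤ S)
    (j : ℕ) (hj : j ≤ 1) (H T : ℝ) (k : ℕ) (hk : 1 ≤ k) (hH : 1 ≤ H) (hHT : H + 2 ≤ T) :
    ∃ E : Set ℝ, E ⊆ Icc T (2 * T) ∧ volume.real E ≤ (H + 2) * (1 + (4 * k + 2) *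
      (T * (k.factorial * S ^ k) + 2 * (y : ℝ) ^ k * (4 * (y : ℝ)) ^ (2 * k)) / η ^ (2 * k)) ∧
    ∀ u ∈ Icc T (2 * T), u ∉ E → ∀ t ∈ Icc u (u + H), ‖tl j y x (lin y t)‖ ≤ η := by
  have hmem : ∀ p ∈ PP x y, p.Prime ∧ 1 ≤ p ∧ p ≤ y := by
    intro p hp
    unfold PP at hp
    simp only [Finset.mem_filter, Finset.mem_Icc] at hp
    exact ⟨hp.2, hp.2.one_lt.le, hp.1.2⟩
  obtain ⟨E, hE, hv, hu⟩ := h1 (PP x y) (fun p => ((Real.log (p : ℝ) ^ j / (p : ℝ) : ℝ) : ℂ))
    (y : ℝ) S (4 * y) η H T k (fun p hp => (hmem p hp).1)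
    (fun p hp => by exact_mod_cast (hmem p hp).2.2) (by exact_mod_cast hy) hk hη hH hHT
    (by
      refine le_trans ?_ hS
      rw [← PP_sum x y (fun p => ((1 + Real.log (p : ℝ)) ^ 2 / (p : ℝ)) ^ 2)]
      apply Finset.sum_le_sum
      intro p hp
      have hp1 : (1 : ℝ) ≤ p := by exact_mod_cast (hmem p hp).2.1
      have h0 : 0 ≤ Real.log (p : ℝ) := Real.log_nonneg hp1
      exact pow_le_pow_left₀ (by positivity) (coeff_le j hj p (hmem p hp).2.1) 2)
    (by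
      have hcard : ((PP x y).card : ℝ) ≤ y := by
        have : (PP x y).card ≤ (Finset.Icc (x + 1) y).card := Finset.card_filter_le _ _
        rw [Nat.card_Icc] at this
        have h' : (PP x y).card ≤ y := by omega
        exact_mod_cast h'
      calc ∑ p ∈ PP x y, ‖((Real.log (p : ℝ) ^ j / (p : ℝ) : ℝ) : ℂ)‖ * (1 + Real.log p)
          ≤ ∑ p ∈ PP x y, (4 : ℝ) := by
            apply Finset.sum_le_sum
            intro p hp
            have hp1 : (1 : ℝ) ≤ p := by exact_mod_cast (hmem p hp).2.1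
            refine le_trans (coeff_le j hj p (hmem p hp).2.1) ?_
            rw [div_le_iff₀ (by linarith)]
            exact one_add_log_sq _ hp1
        _ = (PP x y).card * 4 := by simp
        _ ≤ 4 * y := by linarith)
  refine ⟨E, hE, hv, ?_⟩
  intro u hu1 hu2 t ht
  rw [h2 j y x t]
  exact hu u hu1 hu2 t ht

theorem evL (η A D : ℝ) (_ : 0 < η) (hA : 3 ≤ A) (hD : 1 ≤ D) :
    ∀ᶠ Λ : ℝ in atTop, 8 ≤ Λ ∧ 16 / η ^ 2 ≤ Real.exp (A * Real.log Λ) ∧
      (D + 1) * Real.sqrt Λ * (4 * A * Real.log Λ) ≤ Λ / 4 := by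
  have e1 : ∀ᶠ Λ : ℝ in atTop, 8 ≤ Λ := eventually_ge_atTop 8
  have e2 : ∀ᶠ Λ : ℝ in atTop, 16 / η ^ 2 ≤ Λ := eventually_ge_atTop _
  have e3 := (isLittleO_log_rpow_atTop (show (0:ℝ) < 1 / 2 by norm_num)).bound
    (show (0:ℝ) < 1 / (16 * A * (D + 1)) by positivity)
  filter_upwards [e1, e2, e3] with Λ h1 h2 h3
  have hΛ : 0 < Λ := by linarith
  have hlog : 0 ≤ Real.log Λ := Real.log_nonneg (by linarith)
  refine ⟨h1, ?_, ?_⟩
  · refine h2.trans ?_
    calc Λ = Real.exp (Real.log Λ) := (Real.exp_log hΛ).symm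
      _ ≤ Real.exp (A * Real.log Λ) := by
        apply Real.exp_le_exp.2
        nlinarith
  · rw [Real.norm_eq_abs, Real.norm_eq_abs, abs_of_nonneg hlog,
      abs_of_nonneg (by positivity), ← Real.sqrt_eq_rpow] at h3
    have hs : Real.sqrt Λ ^ 2 = Λ := Real.sq_sqrt hΛ.le
    have h4 : 16 * A * (D + 1) * Real.log Λ ≤ Real.sqrt Λ := by
      have := mul_le_mul_of_nonneg_left h3 (show 0 ≤ 16 * A * (D + 1) by positivity)
      refine this.trans (le_of_eq ?_)
      field_simp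
    have h5 : 0 ≤ Real.sqrt Λ := Real.sqrt_nonneg _
    nlinarith [mul_le_mul_of_nonneg_right h4 h5]

theorem evH (η C D : ℝ) (hη : 0 < η) (hD : 1 ≤ D) :
    ∀ᶠ H : ℝ in atTop, 3 ≤ H ∧ 3 ≤ Real.log H ∧
      2 * C * (D + 1) / η ^ 2 ≤ Real.log H ^ (η / 4) ∧ 6 * (D + 1) * Real.log H ≤ H := by
  have e0 : ∀ᶠ H : ℝ in atTop, 3 ≤ H := eventually_ge_atTop 3
  have e1 : ∀ᶠ H : ℝ in atTop, 3 ≤ Real.log H := Real.tendsto_log_atTop.eventually_ge_atTop 3
  have e2 : ∀ᶠ H : ℝ in atTop, 2 * C * (D + 1) / η ^ 2 ≤ Real.log H ^ (η / 4) :=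
    ((tendsto_rpow_atTop (show (0:ℝ) < η / 4 by positivity)).comp
      Real.tendsto_log_atTop).eventually_ge_atTop _
  have e3 := Real.isLittleO_log_id_atTop.bound (show (0:ℝ) < 1 / (6 * (D + 1)) by positivity)
  filter_upwards [e0, e1, e2, e3] with H h0 h1 h2 h3
  refine ⟨h0, h1, h2, ?_⟩
  rw [Real.norm_eq_abs, abs_of_nonneg (by linarith), id, Real.norm_eq_abs,
    abs_of_nonneg (by linarith)] at h3
  have := mul_le_mul_of_nonneg_left h3 (show 0 ≤ 6 * (D + 1) by positivity)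
  refine this.trans (le_of_eq ?_)
  field_simp

/-- the bound for the first term -/
theorem first_term (η B C D L : ℝ) (hη : η ∈ Ioo (0:ℝ) 1) (hC : 0 < C)
    (hD : D = 16 * (B + 2) / η) (hD1 : 1 ≤ D) (hL : 3 ≤ L)
    (hL2 : 2 * C * (D + 1) / η ^ 2 ≤ L ^ (η / 4)) (x : ℕ) (hx : x = ⌊L ^ (1 + η)⌋₊)
    (k : ℕ) (hk1 : 1 ≤ k) (hk2 : D * L / Real.log L ≤ k) (hk3 : (k : ℝ) ≤ (D + 1) * L) :
    (k.factorial * (C * (x : ℝ) ^ (-(1 - η / 4))) ^ k) / η ^ (2 * k) ≤
      Real.exp (-(4 * (B + 2) * L)) := by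
  have hη0 := hη.1
  have hη1 := hη.2
  have hL0 : 0 < L := by linarith
  have hl1 : 1 ≤ Real.log L := by
    rw [Real.le_log_iff_exp_le hL0]
    linarith [Real.exp_one_lt_d9]
  set v : ℝ := L ^ (1 + η) with hv
  have hvL : L ≤ v := by
    calc L = L ^ (1:ℝ) := (Real.rpow_one L).symm
      _ ≤ v := Real.rpow_le_rpow_of_exponent_le (by linarith) (by linarith)
  have hv0 : 0 < v := by linarith
  have hxv : v / 2 ≤ x := by
    have := Nat.sub_one_lt_floor v
    rw [← hx] at this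
    linarith
  have hx0 : 0 < (x : ℝ) := by linarith
  have hxr : (x : ℝ) ^ (-(1 - η / 4)) ≤ 2 * L ^ (-(1 + η / 2)) := by
    calc (x : ℝ) ^ (-(1 - η / 4)) ≤ (v / 2) ^ (-(1 - η / 4)) :=
          Real.rpow_le_rpow_of_nonpos (by positivity) hxv (by linarith)
      _ = v ^ (-(1 - η / 4)) / 2 ^ (-(1 - η / 4)) := Real.div_rpow hv0.le (by norm_num) _
      _ = v ^ (-(1 - η / 4)) * 2 ^ (1 - η / 4) := by
          rw [Real.rpow_neg (by norm_num : (0:ℝ) ≤ 2), div_inv_eq_mul]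
      _ ≤ L ^ (-(1 + η / 2)) * 2 := by
          apply mul_le_mul
          · rw [hv, ← Real.rpow_mul hL0.le]
            apply Real.rpow_le_rpow_of_exponent_le (by linarith)
            nlinarith
          · calc (2:ℝ) ^ (1 - η / 4) ≤ 2 ^ (1:ℝ) :=
                Real.rpow_le_rpow_of_exponent_le (by norm_num) (by linarith)
              _ = 2 := Real.rpow_one 2
          · positivity
          · positivity
      _ = 2 * L ^ (-(1 + η / 2)) := by ring
  set S : ℝ := C * (x : ℝ) ^ (-(1 - η / 4)) with hS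
  have hS0 : 0 ≤ S := by positivity
  have hkS : (k : ℝ) * S / η ^ 2 ≤ Real.exp (-(η / 4) * Real.log L) := by
    have h1 : (k : ℝ) * S ≤ ((D + 1) * L) * (C * (2 * L ^ (-(1 + η / 2)))) := by
      apply mul_le_mul hk3 _ hS0 (by positivity)
      exact mul_le_mul_of_nonneg_left hxr hC.le
    have h2 : L * L ^ (-(1 + η / 2)) = L ^ (-(η / 2)) := by
      nth_rw 1 [← Real.rpow_one L]
      rw [← Real.rpow_add hL0]
      congr 1
      ring
    have h3 : L ^ (η / 4) * L ^ (-(η / 2)) = L ^ (-(η / 4)) := by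
      rw [← Real.rpow_add hL0]
      congr 1
      ring
    calc (k : ℝ) * S / η ^ 2 ≤ ((D + 1) * L) * (C * (2 * L ^ (-(1 + η / 2)))) / η ^ 2 :=
          div_le_div_of_nonneg_right h1 (by positivity)
      _ = (2 * C * (D + 1) / η ^ 2) * (L * L ^ (-(1 + η / 2))) := by ring
      _ = (2 * C * (D + 1) / η ^ 2) * L ^ (-(η / 2)) := by rw [h2]
      _ ≤ L ^ (η / 4) * L ^ (-(η / 2)) := mul_le_mul_of_nonneg_right hL2 (by positivity)
      _ = L ^ (-(η / 4)) := h3
      _ = Real.exp (-(η / 4) * Real.log L) := by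
          rw [Real.rpow_def_of_pos hL0, mul_comm]
  have hfac : ((k.factorial : ℕ) : ℝ) ≤ (k : ℝ) ^ k := by
    exact_mod_cast Nat.factorial_le_pow k
  calc (k.factorial * S ^ k) / η ^ (2 * k) ≤ ((k : ℝ) ^ k * S ^ k) / η ^ (2 * k) := by
        apply div_le_div_of_nonneg_right _ (by positivity)
        exact mul_le_mul_of_nonneg_right hfac (by positivity)
    _ = ((k : ℝ) * S / η ^ 2) ^ k := by
        rw [div_pow, ← mul_pow, pow_mul]
    _ ≤ (Real.exp (-(η / 4) * Real.log L)) ^ k :=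
        pow_le_pow_left₀ (by positivity) hkS k
    _ = Real.exp (k * (-(η / 4) * Real.log L)) := (Real.exp_nat_mul _ _).symm
    _ ≤ Real.exp (-(4 * (B + 2) * L)) := by
        apply Real.exp_le_exp.2
        have h4 : D * L ≤ k * Real.log L := by
          rwa [div_le_iff₀ (by linarith)] at hk2
        have h5 : η * D = 16 * (B + 2) := by
          rw [hD]; field_simp
        have h6 : η * (D * L) ≤ η * (k * Real.log L) := mul_le_mul_of_nonneg_left h4 hη0.le
        have h7 : η * (D * L) = 16 * (B + 2) * L := by rw [← mul_assoc, h5]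
        nlinarith

/-- the bound for the second term -/
theorem second_term (η A c D L Λ : ℝ) (hη : η ∈ Ioo (0:ℝ) 1) (hA : 3 ≤ A) (hD1 : 1 ≤ D)
    (hL : 3 ≤ L) (hΛ : 8 ≤ Λ) (hΛ2 : 16 / η ^ 2 ≤ Real.exp (A * Real.log Λ))
    (hΛ3 : (D + 1) * Real.sqrt Λ * (4 * A * Real.log Λ) ≤ Λ / 4)
    (hLΛ : L ≤ c * Λ) (hc : 64 * A * D * c ≤ 1) (y : ℕ) (hy : y = ⌊Λ ^ A⌋₊)
    (k : ℕ) (hk2 : (k : ℝ) ≤ D * L / Real.log L + 1) (hk3 : (k : ℝ) ≤ (D + 1) * L) :
    ((y : ℝ) ^ k * (4 * (y : ℝ)) ^ (2 * k)) / η ^ (2 * k) ≤ Real.exp (Λ / 4) := by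
  have hη0 := hη.1
  have hΛ0 : 0 < Λ := by linarith
  have hL0 : 0 < L := by linarith
  have hlΛ : 0 < Real.log Λ := Real.log_pos (by linarith)
  have hyΛ : (y : ℝ) ≤ Real.exp (A * Real.log Λ) := by
    rw [hy, mul_comm, ← Real.rpow_def_of_pos hΛ0]
    exact Nat.floor_le (by positivity)
  have hG : 16 * (y : ℝ) ^ 3 / η ^ 2 ≤ Real.exp (4 * A * Real.log Λ) := by
    calc 16 * (y : ℝ) ^ 3 / η ^ 2 = (16 / η ^ 2) * (y : ℝ) ^ 3 := by ring
      _ ≤ Real.exp (A * Real.log Λ) * Real.exp (A * Real.log Λ) ^ 3 := by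
          apply mul_le_mul hΛ2 (pow_le_pow_left₀ (by positivity) hyΛ 3) (by positivity)
            (by positivity)
      _ = Real.exp (4 * A * Real.log Λ) := by
          rw [← Real.exp_nat_mul, ← Real.exp_add]
          congr 1
          push_cast
          ring
  calc ((y : ℝ) ^ k * (4 * (y : ℝ)) ^ (2 * k)) / η ^ (2 * k)
      = (16 * (y : ℝ) ^ 3 / η ^ 2) ^ k := by
        rw [div_pow, pow_mul, pow_mul, ← mul_pow]
        congr 2
        ring
    _ ≤ (Real.exp (4 * A * Real.log Λ)) ^ k := pow_le_pow_left₀ (by positivity) hG k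
    _ = Real.exp (k * (4 * A * Real.log Λ)) := (Real.exp_nat_mul _ _).symm
    _ ≤ Real.exp (Λ / 4) := by
        apply Real.exp_le_exp.2
        have hs : Real.sqrt Λ ^ 2 = Λ := Real.sq_sqrt hΛ0.le
        have hs1 : 1 ≤ Real.sqrt Λ := by
          rw [Real.one_le_sqrt]; linarith
        have hpos : 0 < 4 * A * Real.log Λ := by positivity
        rcases le_or_gt L (Real.sqrt Λ) with hcase | hcase
        · calc (k : ℝ) * (4 * A * Real.log Λ) ≤ ((D + 1) * L) * (4 * A * Real.log Λ) :=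
                mul_le_mul_of_nonneg_right hk3 hpos.le
            _ ≤ ((D + 1) * Real.sqrt Λ) * (4 * A * Real.log Λ) := by
                apply mul_le_mul_of_nonneg_right _ hpos.le
                exact mul_le_mul_of_nonneg_left hcase (by linarith)
            _ ≤ Λ / 4 := hΛ3
        · have hlL : Real.log Λ / 2 ≤ Real.log L := by
            rw [← Real.log_sqrt hΛ0.le]
            exact Real.log_le_log (by positivity) hcase.le
          have h1 : D * L / Real.log L ≤ D * L / (Real.log Λ / 2) :=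
            div_le_div_of_nonneg_left (by positivity) (by positivity) hlL
          have h2 : D * L / (Real.log Λ / 2) * (4 * A * Real.log Λ) = 8 * A * D * L := by
            field_simp
            ring
          have h3 : (k : ℝ) * (4 * A * Real.log Λ) ≤
              (D * L / (Real.log Λ / 2) + 1) * (4 * A * Real.log Λ) :=
            mul_le_mul_of_nonneg_right (by linarith) hpos.le
          have h4 : 8 * A * D * L ≤ Λ / 8 := by
            have h5 : 8 * A * D * L ≤ 8 * A * D * (c * Λ) :=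
              mul_le_mul_of_nonneg_left hLΛ (by positivity)
            have h6 : 8 * A * D * (c * Λ) = (64 * A * D * c) * (Λ / 8) := by ring
            have h7 : (64 * A * D * c) * (Λ / 8) ≤ 1 * (Λ / 8) :=
              mul_le_mul_of_nonneg_right hc (by positivity)
            linarith
          have h8 : 4 * A * Real.log Λ ≤ Λ / 8 := by
            have h9 : 2 * (4 * A * Real.log Λ) ≤
                (D + 1) * Real.sqrt Λ * (4 * A * Real.log Λ) := by
              apply mul_le_mul_of_nonneg_right _ hpos.le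
              nlinarith
            linarith
          rw [add_mul, h2, one_mul] at h3
          linarith

theorem numeric (η : ℝ) (hη : η ∈ Ioo (0:ℝ) 1) (A : ℝ) (hA : 3 ≤ A) (B : ℝ) (hB : 1 ≤ B)
    (C : ℝ) (hC : 0 < C) :
    ∃ c ∈ Ioo (0:ℝ) 1, ∃ H₀ T₀ : ℝ, 3 ≤ H₀ ∧ 4 ≤ T₀ ∧
    ∀ T : ℝ, T₀ ≤ T → ∀ H : ℝ, H₀ ≤ H → H ≤ T ^ c → ∃ k : ℕ, 1 ≤ k ∧ 1 ≤ ZZ η H ∧
      1 ≤ zA A T ∧ H + 2 ≤ T ∧
      (H + 2) * (1 + (4 * k + 2) *
        (T * (k.factorial * (C * (ZZ η H : ℝ) ^ (-(1 - η / 4))) ^ k) +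
          2 * (zA A T : ℝ) ^ k * (4 * (zA A T : ℝ)) ^ (2 * k)) / η ^ (2 * k)) ≤
      T * H ^ (-B) / 2 := by
  have hη0 := hη.1
  have hη1 := hη.2
  set D : ℝ := 16 * (B + 2) / η with hD
  have hD1 : 1 ≤ D := by
    rw [hD, le_div_iff₀ hη0]
    linarith
  have hD0 : 0 < D := by linarith
  set c : ℝ := min (1 / (4 * (B + 2))) (1 / (64 * A * D)) with hc
  have hc0 : 0 < c := by
    rw [hc]
    exact lt_min (by positivity) (by positivity)
  have hc1 : c * (B + 2) ≤ 1 / 4 := by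
    have h1 : c ≤ 1 / (4 * (B + 2)) := min_le_left _ _
    have h2 := mul_le_mul_of_nonneg_right h1 (show 0 ≤ B + 2 by linarith)
    refine h2.trans (le_of_eq ?_)
    field_simp
  have hc2 : 64 * A * D * c ≤ 1 := by
    have h1 : c ≤ 1 / (64 * A * D) := min_le_right _ _
    have h2 := mul_le_mul_of_nonneg_left h1 (show 0 ≤ 64 * A * D by positivity)
    refine h2.trans (le_of_eq ?_)
    field_simp
  have hc3 : c < 1 := by nlinarith
  obtain ⟨H₀, hH₀⟩ := eventually_atTop.1 (evH η C D hη0 hD1)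
  obtain ⟨T₀, hT₀⟩ := eventually_atTop.1 (Real.tendsto_log_atTop.eventually (evL η A D hη0 hA hD1))
  refine ⟨c, ⟨hc0, hc3⟩, max H₀ 3, max T₀ 4, le_max_right _ _, le_max_right _ _, ?_⟩
  intro T hT H hH hHT
  obtain ⟨hH3, hL3, hL2, hLH⟩ := hH₀ H (le_trans (le_max_left _ _) hH)
  obtain ⟨hΛ8, hΛ2, hΛ3⟩ := hT₀ T (le_trans (le_max_left _ _) hT)
  have hT4 : 4 ≤ T := le_trans (le_max_right _ _) hT
  have hT0 : 0 < T := by linarith
  have hH0 : 0 < H := by linarith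
  have hLΛ : Real.log H ≤ c * Real.log T := by
    rw [← Real.log_rpow hT0]
    exact Real.log_le_log hH0 hHT
  have hexpH : Real.exp (Real.log H) = H := Real.exp_log hH0
  have hexpT : Real.exp (Real.log T) = T := Real.exp_log hT0
  set L : ℝ := Real.log H with hLdef
  set Λ : ℝ := Real.log T with hΛdef
  have hL0 : 0 < L := by linarith
  have hl1 : 1 ≤ Real.log L := by
    rw [Real.le_log_iff_exp_le hL0]
    linarith [Real.exp_one_lt_d9]
  have hBL : (B + 2) * L ≤ Λ / 4 := by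
    have h1 : (B + 2) * L ≤ (B + 2) * (c * Λ) := mul_le_mul_of_nonneg_left hLΛ (by linarith)
    have h2 : (B + 2) * (c * Λ) = (c * (B + 2)) * Λ := by ring
    have h3 : (c * (B + 2)) * Λ ≤ (1 / 4) * Λ := mul_le_mul_of_nonneg_right hc1 (by linarith)
    linarith
  set k : ℕ := ⌈D * L / Real.log L⌉₊ with hk
  have hkpos : 0 < D * L / Real.log L := by positivity
  have hk1 : 1 ≤ k := Nat.ceil_pos.2 hkpos
  have hk2 : D * L / Real.log L ≤ k := Nat.le_ceil _
  have hk3 : (k : ℝ) ≤ D * L / Real.log L + 1 := (Nat.ceil_lt_add_one hkpos.le).le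
  have hk4 : (k : ℝ) ≤ (D + 1) * L := by
    have : D * L / Real.log L ≤ D * L := div_le_self (by positivity) hl1
    nlinarith
  have hZ : ZZ η H = ⌊L ^ (1 + η)⌋₊ := rfl
  have hzA : zA A T = ⌊Λ ^ A⌋₊ := rfl
  have hZ1 : 1 ≤ ZZ η H := by
    rw [hZ]
    apply Nat.one_le_iff_ne_zero.2
    have : 1 ≤ L ^ (1 + η) := Real.one_le_rpow (by linarith) (by linarith)
    exact (Nat.floor_pos.2 this).ne'
  have hz1 : 1 ≤ zA A T := by
    rw [hzA]
    apply Nat.one_le_iff_ne_zero.2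
    have : 1 ≤ Λ ^ A := Real.one_le_rpow (by linarith) (by linarith)
    exact (Nat.floor_pos.2 this).ne'
  have ft := first_term η B C D L hη hC hD hD1 hL3 hL2 (ZZ η H) hZ k hk1 hk2 hk4
  have st := second_term η A c D L Λ hη hA hD1 hL3 hΛ8 hΛ2 hΛ3 hLΛ hc2 (zA A T) hzA k hk3 hk4
  have hLL : L ≤ Λ / 12 := by nlinarith
  have e32 : (32 : ℝ) ≤ Real.exp (Λ / 2) := by
    have h1 : Real.exp 4 ≤ Real.exp (Λ / 2) := Real.exp_le_exp.2 (by linarith)
    have h2 : (2.7 : ℝ) ≤ Real.exp 1 := by linarith [Real.exp_one_gt_d9]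
    have h3 : Real.exp 4 = Real.exp 1 ^ 4 := by
      rw [← Real.exp_nat_mul]; norm_num
    have h4 : (2.7 : ℝ) ^ 4 ≤ Real.exp 1 ^ 4 := pow_le_pow_left₀ (by norm_num) h2 4
    have h5 : (32 : ℝ) ≤ 2.7 ^ 4 := by norm_num
    linarith
  have hHT2 : H + 2 ≤ T := by
    have h1 : H ≤ Real.exp (Λ / 2) := by
      rw [← hexpH]; exact Real.exp_le_exp.2 (by linarith)
    have h2 : T = Real.exp (Λ / 2) * Real.exp (Λ / 2) := by
      rw [← Real.exp_add, ← hexpT]; congr 1; ring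
    nlinarith
  refine ⟨k, hk1, hZ1, hz1, hHT2, ?_⟩
  set F : ℝ := (k.factorial * (C * (ZZ η H : ℝ) ^ (-(1 - η / 4))) ^ k) / η ^ (2 * k) with hF
  set G : ℝ := ((zA A T : ℝ) ^ k * (4 * (zA A T : ℝ)) ^ (2 * k)) / η ^ (2 * k) with hG
  have hF0 : 0 ≤ F := by positivity
  have hG0 : 0 ≤ G := by positivity
  have hrew : (H + 2) * (1 + (4 * k + 2) *
        (T * (k.factorial * (C * (ZZ η H : ℝ) ^ (-(1 - η / 4))) ^ k) +
          2 * (zA A T : ℝ) ^ k * (4 * (zA A T : ℝ)) ^ (2 * k)) / η ^ (2 * k)) =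
      (H + 2) + (H + 2) * (4 * k + 2) * T * F + (H + 2) * (4 * k + 2) * 2 * G := by
    rw [hF, hG]; ring
  rw [hrew]
  have hHB : H ^ (-B) = Real.exp (-(B * L)) := by
    rw [Real.rpow_def_of_pos hH0]; congr 1; ring
  rw [hHB]
  have hk6 : (4 * (k : ℝ) + 2) ≤ H := by
    have : (1 : ℝ) ≤ k := by exact_mod_cast hk1
    nlinarith
  have hH2 : H + 2 ≤ 2 * H := by linarith
  have hHH : (H + 2) * (4 * k + 2) ≤ 2 * H * H := by
    apply mul_le_mul hH2 hk6 (by positivity) (by positivity)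
  have hHe : H = Real.exp L := hexpH.symm
  have hTe : T = Real.exp Λ := hexpT.symm
  have t1 : H + 2 ≤ T * Real.exp (-(B * L)) / 8 := by
    have h1 : 16 * Real.exp L ≤ Real.exp Λ * Real.exp (-(B * L)) := by
      calc 16 * Real.exp L ≤ Real.exp (Λ / 2) * Real.exp L :=
            mul_le_mul_of_nonneg_right (by linarith) (by positivity)
        _ = Real.exp (Λ / 2 + L) := (Real.exp_add _ _).symm
        _ ≤ Real.exp (Λ + -(B * L)) := Real.exp_le_exp.2 (by nlinarith)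
        _ = Real.exp Λ * Real.exp (-(B * L)) := Real.exp_add _ _
    rw [← hHe, ← hTe] at h1
    linarith
  have t2 : (H + 2) * (4 * k + 2) * T * F ≤ T * Real.exp (-(B * L)) / 8 := by
    have h1 : (H + 2) * (4 * k + 2) * T * F ≤ (2 * H * H) * T * Real.exp (-(4 * (B + 2) * L)) := by
      apply mul_le_mul _ ft hF0 (by positivity)
      exact mul_le_mul_of_nonneg_right hHH hT0.le
    have h16 : (16 : ℝ) ≤ Real.exp (9 * L) := by
      have h1 : Real.exp 4 ≤ Real.exp (9 * L) := Real.exp_le_exp.2 (by linarith)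
      have h2 : (2.7 : ℝ) ≤ Real.exp 1 := by linarith [Real.exp_one_gt_d9]
      have h3 : Real.exp 4 = Real.exp 1 ^ 4 := by
        rw [← Real.exp_nat_mul]; norm_num
      have h4 : (2.7 : ℝ) ^ 4 ≤ Real.exp 1 ^ 4 := pow_le_pow_left₀ (by norm_num) h2 4
      have h5 : (32 : ℝ) ≤ 2.7 ^ 4 := by norm_num
      linarith
    have h2 : 16 * (H * H * Real.exp (-(4 * (B + 2) * L))) ≤ Real.exp (-(B * L)) := by
      calc 16 * (H * H * Real.exp (-(4 * (B + 2) * L)))
          ≤ Real.exp (9 * L) * (H * H * Real.exp (-(4 * (B + 2) * L))) :=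
            mul_le_mul_of_nonneg_right h16 (by positivity)
        _ = Real.exp (9 * L + (L + L + -(4 * (B + 2) * L))) := by
            rw [hHe, ← Real.exp_add, ← Real.exp_add, ← Real.exp_add]
        _ ≤ Real.exp (-(B * L)) := Real.exp_le_exp.2 (by nlinarith)
    have h3 := mul_le_mul_of_nonneg_left h2 hT0.le
    nlinarith
  have t3 : (H + 2) * (4 * k + 2) * 2 * G ≤ T * Real.exp (-(B * L)) / 8 := by
    have h1 : (H + 2) * (4 * k + 2) * 2 * G ≤ (2 * H * H) * 2 * Real.exp (Λ / 4) := by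
      apply mul_le_mul _ st hG0 (by positivity)
      exact mul_le_mul_of_nonneg_right hHH (by norm_num)
    have h2 : 32 * (H * H * Real.exp (Λ / 4)) ≤ T * Real.exp (-(B * L)) := by
      calc 32 * (H * H * Real.exp (Λ / 4)) ≤ Real.exp (Λ / 2) * (H * H * Real.exp (Λ / 4)) :=
            mul_le_mul_of_nonneg_right e32 (by positivity)
        _ = Real.exp (Λ / 2 + (L + L + Λ / 4)) := by
            rw [hHe, ← Real.exp_add, ← Real.exp_add, ← Real.exp_add]
        _ ≤ Real.exp (Λ + -(B * L)) := Real.exp_le_exp.2 (by nlinarith)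
        _ = T * Real.exp (-(B * L)) := by rw [Real.exp_add, ← hTe]
    linarith
  have hpos : 0 ≤ T * Real.exp (-(B * L)) := by positivity
  linarith

theorem st_UPK (h1 : ST_SUP) (h2 : ST_TLE) (h3 : Pool.Agent.Helper57.SI.ST_TSQ) : ST_UPK := by
  intro η hη A hA B hB
  obtain ⟨C, hC, hTS⟩ := h3 (η / 4) ⟨by linarith [hη.1], by linarith [hη.2]⟩
  obtain ⟨c, hc, H₀, T₀, hH₀, hT₀, key⟩ := numeric η hη A hA B hB C hC
  refine ⟨c, hc, H₀, T₀, hH₀, hT₀, ?_⟩
  intro T hT H hH hHT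
  obtain ⟨k, hk, hx, hy, hHT2, hb⟩ := key T hT H hH hHT
  have hS := hTS (zA A T) (ZZ η H) hx
  obtain ⟨E0, hE0, hv0, hu0⟩ := one_tail h1 h2 η hη.1 _ (ZZ η H) (zA A T) hy hS 0 (by norm_num)
    H T k hk (by linarith) hHT2
  obtain ⟨E1, hE1, hv1, hu1⟩ := one_tail h1 h2 η hη.1 _ (ZZ η H) (zA A T) hy hS 1 le_rfl
    H T k hk (by linarith) hHT2
  refine ⟨E0 ∪ E1, union_subset hE0 hE1, ?_, ?_⟩
  · calc volume.real (E0 ∪ E1) ≤ volume.real E0 + volume.real E1 := measureReal_union_le _ _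
      _ ≤ T * H ^ (-B) / 2 + T * H ^ (-B) / 2 := add_le_add (hv0.trans hb) (hv1.trans hb)
      _ = T * H ^ (-B) := by ring
  · intro u hu hnu t ht
    exact ⟨hu0 u hu (fun h => hnu (Or.inl h)) t ht, hu1 u hu (fun h => hnu (Or.inr h)) t ht⟩

end Pool.Agent.Helper32.SJ
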